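import Mathlib
import Pool.Agent.helper68.B2.Defs
import Pool.Agent.helper25.B2.TDefs
import Pool.Agent.helper98.B2.B0b

/-! # B2 wave 2, module T8a: the principal null field near a cyclic triple point -/

set_option autoImplicit false

namespace Pool.Agent.helper68.B2

open scoped ContDiff Topology Matrix
open Matrix Set Filter

/-! ## linear algebra -/

theorem T8a_add_left (G : M3) (u v w : V3) : bil G (u + v) w = bil G u w + bil G v w := by
  unfold bil; rw [add_dotProduct]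

theorem T8a_add_right (G : M3) (u v w : V3) : bil G u (v + w) = bil G u v + bil G u w := by
  unfold bil; rw [mulVec_add, dotProduct_add]

theorem T8a_smul_left (G : M3) (c : ℝ) (u v : V3) : bil G (c • u) v = c * bil G u v := by
  unfold bil; rw [smul_dotProduct, smul_eq_mul]

theorem T8a_smul_right (G : M3) (c : ℝ) (u v : V3) : bil G u (c • v) = c * bil G u v := by
  unfold bil; rw [mulVec_smul, dotProduct_smul, smul_eq_mul]

theorem T8a_symm {G : M3} (hs : Gᵀ = G) (u v : V3) : bil G u v = bil G v u := by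
  unfold bil
  rw [dotProduct_mulVec, ← mulVec_transpose, hs, dotProduct_comm]

theorem T8a_sa {G L : M3} (hs : Gᵀ = G) (hsa : (G * L)ᵀ = G * L) (u v : V3) :
    bil G (L *ᵥ u) v = bil G u (L *ᵥ v) := by
  unfold bil
  have h : Lᵀ * G = G * L := by
    rw [← hsa, transpose_mul, hs]
  rw [dotProduct_comm, dotProduct_mulVec, ← mulVec_transpose, mulVec_mulVec, h, dotProduct_comm,
    mulVec_mulVec]

/-- Gram matrix of three vectors -/
theorem T8a_gram (G : M3) (a b c : V3) :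
    (Matrix.of ![a, b, c] : M3) * G * (Matrix.of ![a, b, c] : M3)ᵀ =
      !![bil G a a, bil G a b, bil G a c; bil G b a, bil G b b, bil G b c;
        bil G c a, bil G c b, bil G c c] := by
  ext i j
  fin_cases i <;> fin_cases j <;>
    simp [Matrix.mul_apply, bil, dotProduct, mulVec, vecMul, Fin.sum_univ_three] <;> ring

theorem T8a_gram_det (G : M3) (a b c : V3) :
    (Matrix.of ![a, b, c] : M3).det ^ 2 * G.det =
      (!![bil G a a, bil G a b, bil G a c; bil G b a, bil G b b, bil G b c;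
        bil G c a, bil G c b, bil G c c] : M3).det := by
  rw [← T8a_gram, det_mul, det_mul, det_transpose]
  ring

/-- three vectors with nondegenerate Gram matrix -/
theorem T8a_perp {G : M3} {a b c u : V3}
    (h : (!![bil G a a, bil G a b, bil G a c; bil G b a, bil G b b, bil G b c;
        bil G c a, bil G c b, bil G c c] : M3).det ≠ 0)
    (ha : bil G a u = 0) (hb : bil G b u = 0) (hc : bil G c u = 0) : u = 0 := by
  rw [← T8a_gram_det] at h
  have h1 : (Matrix.of ![a, b, c] : M3).det ≠ 0 := by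
    intro h0; apply h; rw [h0]; ring
  have h2 : G.det ≠ 0 := by
    intro h0; apply h; rw [h0]; ring
  have h3 : ((Matrix.of ![a, b, c] : M3) * G).det ≠ 0 := by
    rw [det_mul]; exact mul_ne_zero h1 h2
  apply Matrix.eq_zero_of_mulVec_eq_zero h3
  rw [← mulVec_mulVec]
  ext i
  fin_cases i
  · simpa [bil, mulVec] using ha
  · simpa [bil, mulVec] using hb
  · simpa [bil, mulVec] using hc

theorem T8a_inj {G L : M3} (hs : Gᵀ = G) (hsa : (G * L)ᵀ = G * L) {A : V3}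
    (h0 : bil G A A = 0) (h1 : bil G (L *ᵥ A) A = 0) (h2 : bil G (L *ᵥ (L *ᵥ A)) A = 1) {u : V3}
    (k0 : bil G A u = 0) (k1 : bil G (L *ᵥ A) u = 0) (k2 : bil G (L *ᵥ (L *ᵥ A)) u = 0) : u = 0 := by
  refine T8a_perp (G := G) (a := A) (b := L *ᵥ A) (c := L *ᵥ (L *ᵥ A)) ?_ k0 k1 k2
  have e1 : bil G A (L *ᵥ A) = 0 := by rw [T8a_symm hs, h1]
  have e2 : bil G A (L *ᵥ (L *ᵥ A)) = 1 := by rw [T8a_symm hs, h2]
  have e3 : bil G (L *ᵥ A) (L *ᵥ A) = 1 := by rw [← T8a_sa hs hsa, h2]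
  rw [h0, e1, e2, h1, e3, h2, Matrix.det_fin_three]
  simp

/-- existence of the principal null vector -/
theorem T8a_alg {G N : M3} (hs : Gᵀ = G) (hd : G.det < 0) (hsa : (G * N)ᵀ = G * N)
    (h3 : N ^ 3 = 0) (h2 : N ^ 2 ≠ 0) :
    ∃ A : V3, bil G A A = 0 ∧ bil G (N *ᵥ A) A = 0 ∧ bil G (N *ᵥ (N *ᵥ A)) A = 1 := by
  have hN : ∀ v : V3, N *ᵥ (N *ᵥ (N *ᵥ v)) = 0 := by
    intro v
    rw [mulVec_mulVec, mulVec_mulVec]
    have : N * (N * N) = 0 := by rw [← h3]; noncomm_ring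
    rw [← mul_assoc] at this
    rw [this, zero_mulVec]
  obtain ⟨v, hv⟩ : ∃ v : V3, bil G (N *ᵥ (N *ᵥ v)) v ≠ 0 := by
    by_contra hcon
    push Not at hcon
    have h4 : ∀ u v : V3, bil G (N *ᵥ (N *ᵥ u)) v = 0 := by
      intro u v
      have e1 := hcon (u + v)
      rw [mulVec_add, mulVec_add, T8a_add_left, T8a_add_right, T8a_add_right, hcon u, hcon v] at e1
      have e2 : bil G (N *ᵥ (N *ᵥ v)) u = bil G (N *ᵥ (N *ᵥ u)) v := by
        rw [T8a_sa hs hsa, T8a_sa hs hsa, T8a_symm hs]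
      rw [e2] at e1
      linarith
    apply h2
    have h5 : ∀ u : V3, N *ᵥ (N *ᵥ u) = 0 := by
      intro u
      apply Matrix.eq_zero_of_mulVec_eq_zero (M := G) hd.ne
      apply dotProduct_eq_zero
      intro w
      have := h4 u w
      rw [T8a_symm hs] at this
      unfold bil at this
      rw [dotProduct_comm]
      exact this
    rw [pow_two]
    ext i j
    have h6 := congrFun (h5 (Pi.single j 1)) i
    rw [mulVec_mulVec, mulVec_single_one] at h6
    simpa using h6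
  set m0 := bil G v v with hm0
  set m1 := bil G (N *ᵥ v) v with hm1
  set m2 := bil G (N *ᵥ (N *ᵥ v)) v with hm2
  have e1 : bil G v (N *ᵥ v) = m1 := by rw [T8a_symm hs]
  have e2 : bil G v (N *ᵥ (N *ᵥ v)) = m2 := by rw [T8a_symm hs]
  have e3 : bil G (N *ᵥ v) (N *ᵥ v) = m2 := by rw [← T8a_sa hs hsa]
  have z : ∀ w : V3, bil G w 0 = 0 := by intro w; simp [bil]
  have z' : ∀ w : V3, bil G 0 w = 0 := by intro w; simp [bil]
  have e4 : bil G (N *ᵥ v) (N *ᵥ (N *ᵥ v)) = 0 := by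
    rw [T8a_symm hs, ← T8a_sa hs hsa, hN, z']
  have e5 : bil G (N *ᵥ (N *ᵥ v)) (N *ᵥ v) = 0 := by rw [T8a_symm hs, e4]
  have e6 : bil G (N *ᵥ (N *ᵥ v)) (N *ᵥ (N *ᵥ v)) = 0 := by
    rw [← T8a_sa hs hsa, hN, z']
  have hpos : 0 < m2 := by
    have h7 := T8a_gram_det G v (N *ᵥ v) (N *ᵥ (N *ᵥ v))
    have h70 : (!![m0, m1, m2; m1, m2, 0; m2, 0, 0] : M3).det = -(m2 * m2 * m2) := by
      rw [Matrix.det_fin_three]
      simp
    rw [← hm0, e1, e2, ← hm1, e3, e4, ← hm2, e5, e6, h70] at h7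
    have h8 : (Matrix.of ![v, N *ᵥ v, N *ᵥ (N *ᵥ v)] : M3).det ^ 2 * G.det ≤ 0 :=
      mul_nonpos_of_nonneg_of_nonpos (sq_nonneg _) hd.le
    by_contra hneg
    push Not at hneg
    have h9 : m2 < 0 := lt_of_le_of_ne hneg hv
    have h10 : m2 * m2 * m2 < 0 := by
      have : 0 < m2 * m2 := mul_pos_of_neg_of_neg h9 h9
      exact mul_neg_of_pos_of_neg this h9
    rw [h7] at h8
    linarith
  set r := Real.sqrt m2 with hr
  have hr0 : 0 < r := Real.sqrt_pos.2 hpos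
  have hrr : r * r = m2 := Real.mul_self_sqrt hpos.le
  obtain ⟨α, hα⟩ : ∃ α, α = 1 / r := ⟨_, rfl⟩
  obtain ⟨β, hβ⟩ : ∃ β, β = -(α * m1) / (2 * m2) := ⟨_, rfl⟩
  obtain ⟨γ, hγ⟩ : ∃ γ, γ = -(α ^ 2 * m0 + 2 * α * β * m1 + β ^ 2 * m2) / (2 * α * m2) := ⟨_, rfl⟩
  have hα0 : α ≠ 0 := by rw [hα]; exact one_div_ne_zero hr0.ne'
  have hα2 : α ^ 2 * m2 = 1 := by
    rw [hα, ← hrr]; field_simp
  have hβ2 : α ^ 2 * m1 + 2 * α * β * m2 = 0 := by
    rw [hβ]; field_simp; ring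
  have hγ2 : α ^ 2 * m0 + 2 * α * β * m1 + β ^ 2 * m2 + 2 * α * γ * m2 = 0 := by
    rw [hγ]; field_simp; ring
  have f1 : N *ᵥ (α • v + β • (N *ᵥ v) + γ • (N *ᵥ (N *ᵥ v))) = α • (N *ᵥ v) + β • (N *ᵥ (N *ᵥ v)) := by
    rw [mulVec_add, mulVec_add, mulVec_smul, mulVec_smul, mulVec_smul, hN, smul_zero, add_zero]
  have f2 : N *ᵥ (α • (N *ᵥ v) + β • (N *ᵥ (N *ᵥ v))) = α • (N *ᵥ (N *ᵥ v)) := by
    rw [mulVec_add, mulVec_smul, mulVec_smul, hN, smul_zero, add_zero]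
  refine ⟨α • v + β • (N *ᵥ v) + γ • (N *ᵥ (N *ᵥ v)), ?_, ?_, ?_⟩
  · simp only [T8a_add_left, T8a_add_right, T8a_smul_left, T8a_smul_right, e1, e2, e3, e4, e5, e6,
      ← hm0, ← hm1, ← hm2]
    linear_combination hγ2
  · rw [f1]
    simp only [T8a_add_left, T8a_add_right, T8a_smul_left, T8a_smul_right, e1, e2, e3, e4, e5, e6,
      ← hm0, ← hm1, ← hm2]
    linear_combination hβ2
  · rw [f1, f2]
    simp only [T8a_add_left, T8a_add_right, T8a_smul_left, T8a_smul_right, e1, e2, e3, e4, e5, e6,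
      ← hm0, ← hm1, ← hm2]
    linear_combination hα2

/-! ## the equation -/

/-- the three equations for a principal null vector -/
noncomputable def T8a_F (S : Geo) (y : E4 × V3) : V3 :=
  ![bil (S.G y.1) y.2 y.2, bil (S.G y.1) (S.L y.1 *ᵥ y.2) y.2,
    bil (S.G y.1) (S.L y.1 *ᵥ (S.L y.1 *ᵥ y.2)) y.2]

theorem T8a_bilin {X E F G : Type*} [NormedAddCommGroup X] [NormedSpace ℝ X] [NormedAddCommGroup E]
    [NormedSpace ℝ E] [FiniteDimensional ℝ E] [NormedAddCommGroup F] [NormedSpace ℝ F]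
    [FiniteDimensional ℝ F] [NormedAddCommGroup G] [NormedSpace ℝ G] {T : E → F → G}
    (hT : IsBilinearMap ℝ T) {f : X → E} {g : X → F} {x : X} (hf : ContDiffAt ℝ ∞ f x)
    (hg : ContDiffAt ℝ ∞ g x) : ContDiffAt ℝ ∞ (fun y => T (f y) (g y)) x :=
  hT.toContinuousBilinearMap.isBoundedBilinearMap.contDiff.contDiffAt.comp x (hf.prodMk hg)

theorem T8a_Sm {F : Type*} [NormedAddCommGroup F] [NormedSpace ℝ F] {f : E4 → F} (h : Sm f)
    {x : E4} (hx : x ≠ 0) : ContDiffAt ℝ ∞ f x :=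
  h.contDiffAt (isOpen_compl_singleton.mem_nhds hx)

theorem T8a_F_smooth (S : Geo) {y : E4 × V3} (hy : y.1 ≠ 0) : ContDiffAt ℝ ∞ (T8a_F S) y := by
  have hG : ContDiffAt ℝ ∞ (fun z : E4 × V3 => S.G z.1) y :=
    (T8a_Sm S.smG hy).comp y contDiffAt_fst
  have hL : ContDiffAt ℝ ∞ (fun z : E4 × V3 => S.L z.1) y :=
    (T8a_Sm S.smL hy).comp y contDiffAt_fst
  have hA : ContDiffAt ℝ ∞ (fun z : E4 × V3 => z.2) y := contDiffAt_snd
  have hLA := T8a_bilin B0b_bil_mulVec hL hA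
  have hLLA := T8a_bilin B0b_bil_mulVec hL hLA
  have hGA := T8a_bilin B0b_bil_mulVec hG hA
  rw [contDiffAt_pi]
  intro i
  fin_cases i
  · exact T8a_bilin B0b_bil_dotProduct hA hGA
  · exact T8a_bilin B0b_bil_dotProduct hLA hGA
  · exact T8a_bilin B0b_bil_dotProduct hLLA hGA

/-- the map `(x, A) ↦ (x, F (x, A))` -/
noncomputable def T8a_P (S : Geo) (y : E4 × V3) : E4 × V3 := (y.1, T8a_F S y)

theorem T8a_P_smooth (S : Geo) {y : E4 × V3} (hy : y.1 ≠ 0) : ContDiffAt ℝ ∞ (T8a_P S) y :=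
  contDiffAt_fst.prodMk (T8a_F_smooth S hy)

/-- derivative of a quadratic form along a line -/
theorem T8a_line {f : ℝ → ℝ} (q b c : ℝ) (h : ∀ t, f t = q + 2 * t * b + t ^ 2 * c) :
    HasDerivAt f (2 * b) 0 := by
  have h1 : f = fun t => q + 2 * t * b + t ^ 2 * c := funext h
  rw [h1]
  have h2 : HasDerivAt (fun t : ℝ => q + 2 * t * b + t ^ 2 * c) (2 * b + (2 * 0) * c) 0 := by
    have h3 : HasDerivAt (fun t : ℝ => q + 2 * t * b) (2 * b) 0 := by
      have := ((hasDerivAt_id (0 : ℝ)).const_mul 2).mul_const b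
      simpa using this.const_add q
    have h4 : HasDerivAt (fun t : ℝ => t ^ 2 * c) ((2 * 0) * c) 0 := by
      have := (hasDerivAt_pow 2 (0 : ℝ)).mul_const c
      simpa using this
    exact h3.add h4
  simpa using h2

theorem T8a_equiv (S : Geo) {x : E4} (hx : x ≠ 0) {A : V3} (hA : IsCyc S x A) :
    ∃ f' : (E4 × V3) ≃L[ℝ] (E4 × V3), HasFDerivAt (T8a_P S) (f' : (E4 × V3) →L[ℝ] (E4 × V3)) (x, A) := by
  have hdF : DifferentiableAt ℝ (T8a_F S) (x, A) :=
    (T8a_F_smooth S (y := (x, A)) hx).differentiableAt (by simp)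
  have hF := hdF.hasFDerivAt
  have hP : HasFDerivAt (T8a_P S)
      ((ContinuousLinearMap.fst ℝ E4 V3).prod (fderiv ℝ (T8a_F S) (x, A))) (x, A) :=
    hasFDerivAt_fst.prodMk hF
  set D := (ContinuousLinearMap.fst ℝ E4 V3).prod (fderiv ℝ (T8a_F S) (x, A)) with hD
  have hs := S.symm x hx
  have hsa := S.selfadj x hx
  have hinj : Function.Injective (D : (E4 × V3) →ₗ[ℝ] (E4 × V3)) := by
    rw [← LinearMap.ker_eq_bot, LinearMap.ker_eq_bot']
    rintro ⟨w, u⟩ hwu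
    have h1 : w = 0 := congrArg Prod.fst hwu
    subst h1
    have h2 : fderiv ℝ (T8a_F S) (x, A) (0, u) = 0 := congrArg Prod.snd hwu
    have hline : HasDerivAt (fun t : ℝ => ((x, A) : E4 × V3) + t • ((0, u) : E4 × V3)) (0, u) 0 := by
      have := ((hasDerivAt_id (0 : ℝ)).smul_const ((0, u) : E4 × V3)).const_add ((x, A) : E4 × V3)
      simpa using this
    have hF0 : HasFDerivAt (T8a_F S) (fderiv ℝ (T8a_F S) (x, A))
        (((x, A) : E4 × V3) + (0 : ℝ) • ((0, u) : E4 × V3)) := by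
      rw [zero_smul, add_zero]; exact hF
    have h3 := hF0.comp_hasDerivAt (0 : ℝ) hline
    rw [h2] at h3
    rw [hasDerivAt_pi] at h3
    have k0 : (2 : ℝ) * bil (S.G x) A u = 0 := by
      refine (T8a_line (bil (S.G x) A A) _ (bil (S.G x) u u) ?_).unique (h3 0)
      intro t
      simp [T8a_F, T8a_add_left, T8a_add_right, T8a_smul_left, T8a_smul_right]
      rw [T8a_symm hs u A]; ring
    have k1 : (2 : ℝ) * bil (S.G x) (S.L x *ᵥ A) u = 0 := by
      refine (T8a_line (bil (S.G x) (S.L x *ᵥ A) A) _ (bil (S.G x) (S.L x *ᵥ u) u) ?_).unique (h3 1)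
      intro t
      simp [T8a_F, T8a_add_left, T8a_add_right, T8a_smul_left, T8a_smul_right, mulVec_add,
        mulVec_smul]
      rw [T8a_sa hs hsa u A, T8a_symm hs u (S.L x *ᵥ A)]; ring
    have k2 : (2 : ℝ) * bil (S.G x) (S.L x *ᵥ (S.L x *ᵥ A)) u = 0 := by
      refine (T8a_line (bil (S.G x) (S.L x *ᵥ (S.L x *ᵥ A)) A) _
        (bil (S.G x) (S.L x *ᵥ (S.L x *ᵥ u)) u) ?_).unique (h3 2)
      intro t
      simp [T8a_F, T8a_add_left, T8a_add_right, T8a_smul_left, T8a_smul_right, mulVec_add,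
        mulVec_smul, -Matrix.mulVec_mulVec]
      rw [T8a_sa hs hsa (S.L x *ᵥ u) A, T8a_sa hs hsa u (S.L x *ᵥ A),
        T8a_symm hs u (S.L x *ᵥ (S.L x *ᵥ A))]; ring
    have h4 : u = 0 := T8a_inj hs hsa hA.aa hA.la hA.lla (by linarith) (by linarith) (by linarith)
    rw [h4]; rfl
  refine ⟨(LinearEquiv.ofInjectiveEndo _ hinj).toContinuousLinearEquiv, ?_⟩
  have hE : ((LinearEquiv.ofInjectiveEndo _ hinj).toContinuousLinearEquiv :
      (E4 × V3) →L[ℝ] (E4 × V3)) = D := by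
    refine ContinuousLinearMap.ext fun z => ?_
    rfl
  rw [hE]
  exact hP

/-- near a point with `(L-c)^3 = 0 ≠ (L-c)^2` there is the principal null field `A` -/
theorem J3_exists (S : Geo) {p : E4} (hp : p ≠ 0) {c : ℝ} (h3 : (S.L p - c • (1 : M3)) ^ 3 = 0)
    (h2 : (S.L p - c • (1 : M3)) ^ 2 ≠ 0) :
    ∃ (W : Set E4) (A : E4 → V3), OCone W ∧ p ∈ W ∧ Hom A ∧ ContDiffOn ℝ ∞ A W ∧
      ∀ x ∈ W, IsCyc S x (A x) := by
  have hs := S.symm p hp
  have hd := S.det_neg p hp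
  have hsa := S.selfadj p hp
  have hsaN : (S.G p * (S.L p - c • (1 : M3)))ᵀ = S.G p * (S.L p - c • (1 : M3)) := by
    rw [mul_sub, transpose_sub, hsa, mul_smul_comm, mul_one, transpose_smul, hs]
  obtain ⟨A₀, a0, a1, a2⟩ := T8a_alg hs hd hsaN h3 h2
  have hL : ∀ v : V3, S.L p *ᵥ v = (S.L p - c • (1 : M3)) *ᵥ v + c • v := by
    intro v
    rw [sub_mulVec, smul_mulVec, one_mulVec]; abel
  have b1 : bil (S.G p) (S.L p *ᵥ A₀) A₀ = 0 := by
    rw [hL, T8a_add_left, T8a_smul_left, a0, a1]; ring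
  have b2 : bil (S.G p) (S.L p *ᵥ (S.L p *ᵥ A₀)) A₀ = 1 := by
    rw [hL (S.L p *ᵥ A₀), hL A₀, mulVec_add, mulVec_smul]
    simp only [T8a_add_left, T8a_smul_left, smul_add, a0, a1, a2]; ring
  have hcyc : IsCyc S p A₀ := ⟨a0, b1, b2⟩
  have hsm : ContDiffAt ℝ ∞ (T8a_P S) (p, A₀) := T8a_P_smooth S hp
  obtain ⟨f', hf'⟩ := T8a_equiv S hp hcyc
  set e := hsm.toOpenPartialHomeomorph (T8a_P S) hf' (by simp) with he
  have hsrc : (p, A₀) ∈ e.source := hsm.mem_toOpenPartialHomeomorph_source hf' (by simp)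
  have hecoe : ∀ y, e y = T8a_P S y := fun y => rfl
  set y₀ : V3 := ![0, 0, 1] with hy₀
  have hPp : ∀ {x : E4} {A : V3}, IsCyc S x A ↔ T8a_P S (x, A) = (x, y₀) := by
    intro x A
    constructor
    · intro h
      refine Prod.ext rfl ?_
      ext i
      fin_cases i
      · exact h.aa
      · exact h.la
      · exact h.lla
    · intro h
      have h' : T8a_F S (x, A) = y₀ := congrArg Prod.snd h
      exact ⟨congrFun h' 0, congrFun h' 1, congrFun h' 2⟩
  have htgt : ((p, y₀) : E4 × V3) ∈ e.target := by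
    have := e.map_source hsrc
    rw [hecoe, hPp.1 hcyc] at this
    exact this
  -- the open set of good points
  set U : Set E4 := {x | x ≠ 0 ∧ ((x, y₀) : E4 × V3) ∈ e.target} with hU
  have hUo : IsOpen U := by
    refine isOpen_ne.inter ?_
    exact e.open_target.preimage (by fun_prop : Continuous fun x : E4 => ((x, y₀) : E4 × V3))
  have hpU : p ∈ U := ⟨hp, htgt⟩
  set B : E4 → V3 := fun x => (e.symm (x, y₀)).2 with hB
  have hBx : ∀ x ∈ U, e.symm (x, y₀) = (x, B x) ∧ IsCyc S x (B x) := by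
    intro x hx
    have h1 : e (e.symm (x, y₀)) = (x, y₀) := e.right_inv hx.2
    rw [hecoe] at h1
    have h4 : (e.symm (x, y₀)).1 = x := congrArg Prod.fst h1
    have h5 : e.symm (x, y₀) = (x, B x) := Prod.ext h4 rfl
    refine ⟨h5, ?_⟩
    rw [h5] at h1
    exact hPp.2 h1
  have hBs : ∀ x ∈ U, ContDiffAt ℝ ∞ B x := by
    intro x hx
    obtain ⟨h5, h6⟩ := hBx x hx
    obtain ⟨g', hg'⟩ := T8a_equiv S hx.1 h6
    have h7 : ContDiffAt ℝ ∞ e.symm (x, y₀) := by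
      refine e.contDiffAt_symm (f₀' := g') hx.2 ?_ ?_
      · rw [h5]; exact hg'
      · rw [h5]; exact T8a_P_smooth S hx.1
    have h8 : ContDiffAt ℝ ∞ (fun z : E4 => ((z, y₀) : E4 × V3)) x :=
      contDiffAt_id.prodMk contDiffAt_const
    exact contDiffAt_snd.comp x (h7.comp x h8)
  -- the cone
  have hn : ∀ x : E4, ∀ t : ℝ, 0 < t → (‖p‖ / ‖t • x‖) • (t • x) = (‖p‖ / ‖x‖) • x := by
    intro x t ht
    by_cases hx : x = 0
    · simp [hx]
    · have hx' : ‖x‖ ≠ 0 := norm_ne_zero_iff.2 hx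
      rw [norm_smul, Real.norm_of_nonneg ht.le, smul_smul]
      congr 1
      field_simp
  have hrad : ∀ x : E4, x ≠ 0 → ContDiffAt ℝ ∞ (fun x : E4 => (‖p‖ / ‖x‖) • x) x := by
    intro x hx
    have h9 : ContDiffAt ℝ ∞ (fun x : E4 => ‖x‖) x := contDiffAt_norm ℝ hx
    exact ((contDiffAt_const).div h9 (norm_ne_zero_iff.2 hx)).smul contDiffAt_id
  have hpos : ∀ x : E4, x ≠ 0 → 0 < ‖p‖ / ‖x‖ := fun x hx =>
    div_pos (norm_pos_iff.2 hp) (norm_pos_iff.2 hx)
  refine ⟨{x | x ≠ 0 ∧ (‖p‖ / ‖x‖) • x ∈ U}, fun x => B ((‖p‖ / ‖x‖) • x), ⟨?_, ?_, ?_⟩, ?_, ?_, ?_, ?_⟩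
  · rw [isOpen_iff_mem_nhds]
    rintro x ⟨hx, hxU⟩
    have h10 := (hrad x hx).continuousAt.preimage_mem_nhds (hUo.mem_nhds hxU)
    filter_upwards [h10, isOpen_ne.mem_nhds hx] with y hy1 hy2
    exact ⟨hy2, hy1⟩
  · rintro ⟨h, -⟩; exact h rfl
  · rintro x ⟨hx, hxU⟩ t ht
    refine ⟨smul_ne_zero ht.ne' hx, ?_⟩
    change (‖p‖ / ‖t • x‖) • (t • x) ∈ U
    rw [hn x t ht]
    exact hxU
  · refine ⟨hp, ?_⟩
    rw [div_self (norm_ne_zero_iff.2 hp), one_smul]
    exact hpU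
  · intro t ht x
    change B _ = B _
    rw [hn x t ht]
  · rintro x ⟨hx, hxU⟩
    exact (ContDiffAt.comp (g := B) (f := fun x : E4 => (‖p‖ / ‖x‖) • x) x (hBs _ hxU)
      (hrad x hx)).contDiffWithinAt
  · rintro x ⟨hx, hxU⟩
    have h11 := (hBx _ hxU).2
    have hG : S.G ((‖p‖ / ‖x‖) • x) = S.G x := S.homG _ (hpos x hx) x
    have hL' : S.L ((‖p‖ / ‖x‖) • x) = S.L x := S.homL _ (hpos x hx) x
    refine ⟨?_, ?_, ?_⟩
    · have := h11.aa
      unfold Geo.g at this ⊢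
      rw [hG] at this
      exact this
    · have := h11.la
      unfold Geo.g at this ⊢
      rw [hG, hL'] at this
      exact this
    · have := h11.lla
      unfold Geo.g at this ⊢
      rw [hG, hL'] at this
      exact this

end Pool.Agent.helper68.B2
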