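import Mathlib
import Pool.Agent.helper25.B2.TDefs
import Pool.Agent.helper98.B2.GA
import Pool.Agent.helper9.B2.T1b
import Pool.Agent.helper15.B2.T8a

/-! # B2 wave 2, module T8b: the principal null form is closed -/

set_option autoImplicit false

namespace Pool.Agent.helper68.B2

open scoped ContDiff Topology Matrix
open Matrix Set Filter

theorem T8b_nab_add (S : Geo) (A : E4 → V3) (v w : V3) (x : E4) :
    S.nab A (v + w) x = S.nab A v x + S.nab A w x := by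
  unfold Geo.nab
  rw [Dv_add_arg, S.Gam_add, add_mulVec]
  abel

theorem T8b_nab_smul (S : Geo) (A : E4 → V3) (c : ℝ) (v : V3) (x : E4) :
    S.nab A (c • v) x = c • S.nab A v x := by
  unfold Geo.nab
  rw [Dv_smul_arg, S.Gam_smul, smul_mulVec, smul_add]

/-- expansion in a basis -/
theorem T8b_basis {a b c : V3} (h : (Matrix.of ![a, b, c] : M3).det ≠ 0) (X : V3) :
    ∃ r s t : ℝ, X = r • a + s • b + t • c := by
  have h1 : IsUnit ((Matrix.of ![a, b, c] : M3)ᵀ).det := by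
    rw [det_transpose]; exact isUnit_iff_ne_zero.2 h
  set c' : V3 := ((Matrix.of ![a, b, c] : M3)ᵀ)⁻¹ *ᵥ X with hc'
  refine ⟨c' 0, c' 1, c' 2, ?_⟩
  have h2 : (Matrix.of ![a, b, c] : M3)ᵀ *ᵥ c' = X := by
    rw [hc', mulVec_mulVec, Matrix.mul_nonsing_inv _ h1, one_mulVec]
  rw [← h2]
  ext i
  simp [mulVec, dotProduct, Fin.sum_univ_three]
  ring

theorem T8b_L (S : Geo) {A : E4 → V3} {x : E4} (hx : x ≠ 0) (hA : DifferentiableAt ℝ A x) (v : V3) :
    S.nab (fun y => S.L y *ᵥ A y) v x =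
      S.L x *ᵥ S.nab A v x + (S.g x (S.lam x) (A x) • v + S.g x v (A x) • S.lam x) := by
  rw [S.nab_mulVec (S.GA_diffL hx) hA, S.main_v hx, S.od_apply hx]
  abel

/-- the covariant derivative of the principal null field is self-adjoint -/
theorem T8b_symm (S : Geo) {W : Set E4} (hW : OCone W) {A : E4 → V3}
    (hs : ContDiffOn ℝ ∞ A W) (hc : ∀ x ∈ W, IsCyc S x (A x)) {x : E4} (hx : x ∈ W) (X Y : V3) :
    S.g x (S.nab A X x) Y = S.g x (S.nab A Y x) X := by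
  have hx0 : x ≠ 0 := by rintro rfl; exact hW.zero hx
  have hWn : W ∈ 𝓝 x := hW.isOpen.mem_nhds hx
  have hA : DifferentiableAt ℝ A x := (hs.contDiffAt hWn).differentiableAt (by simp)
  have hLA : DifferentiableAt ℝ (fun y => S.L y *ᵥ A y) x :=
    ((B0b_H_of (v := 0) (S.GA_diffL hx0)).bilin B0b_bil_mulVec (B0b_H_of hA)).diff
  have hcx := hc x hx
  have hsG := S.symm x hx0
  -- differentiated equations
  have d0 : ∀ v, S.g x (S.nab A v x) (A x) = 0 := by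
    intro v
    have h1 : (fun y => S.g y (A y) (A y)) =ᶠ[𝓝 x] fun _ => (0 : ℝ) := by
      filter_upwards [hWn] with y hy using (hc y hy).aa
    have h2 : Dv (fun y => S.g y (A y) (A y)) v x = 0 := by rw [B0b_Dv_congr h1, Dv_const]
    rw [S.nab_g hx0 hA hA, S.g_symm hx0 (A x)] at h2
    linarith
  have d1 : ∀ v, S.g x (S.nab A v x) (S.L x *ᵥ A x) = -(S.g x v (A x) * S.g x (S.lam x) (A x)) := by
    intro v
    have h1 : (fun y => S.g y (S.L y *ᵥ A y) (A y)) =ᶠ[𝓝 x] fun _ => (0 : ℝ) := by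
      filter_upwards [hWn] with y hy using (hc y hy).la
    have h2 : Dv (fun y => S.g y (S.L y *ᵥ A y) (A y)) v x = 0 := by rw [B0b_Dv_congr h1, Dv_const]
    rw [S.nab_g (V := fun y => S.L y *ᵥ A y) hx0 hLA hA, T8b_L S hx0 hA] at h2
    have h3 : S.g x (S.L x *ᵥ S.nab A v x) (A x) = S.g x (S.nab A v x) (S.L x *ᵥ A x) :=
      S.g_L hx0 _ _
    have h4 : S.g x (S.L x *ᵥ A x) (S.nab A v x) = S.g x (S.nab A v x) (S.L x *ᵥ A x) :=
      S.g_symm hx0 _ _
    unfold Geo.g at *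
    rw [T8a_add_left, T8a_add_left, T8a_smul_left, T8a_smul_left, h3, h4] at h2
    linarith
  have d2 : ∀ v, S.g x (S.nab A v x) (S.L x *ᵥ (S.L x *ᵥ A x)) =
      -(S.g x v (S.L x *ᵥ A x) * S.g x (S.lam x) (A x)) - S.g x v (A x) * S.g x (S.lam x) (S.L x *ᵥ A x) := by
    intro v
    have h1 : (fun y => S.g y (S.L y *ᵥ A y) (S.L y *ᵥ A y)) =ᶠ[𝓝 x] fun _ => (1 : ℝ) := by
      filter_upwards [hWn] with y hy
      have hy0 : y ≠ 0 := by rintro rfl; exact hW.zero hy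
      rw [← S.g_L hy0]
      exact (hc y hy).lla
    have h2 : Dv (fun y => S.g y (S.L y *ᵥ A y) (S.L y *ᵥ A y)) v x = 0 := by
      rw [B0b_Dv_congr h1, Dv_const]
    rw [S.nab_g (V := fun y => S.L y *ᵥ A y) (W := fun y => S.L y *ᵥ A y) hx0 hLA hLA,
      T8b_L S hx0 hA] at h2
    rw [S.g_symm hx0 (S.L x *ᵥ A x)] at h2
    have h3 : S.g x (S.L x *ᵥ S.nab A v x) (S.L x *ᵥ A x) =
      S.g x (S.nab A v x) (S.L x *ᵥ (S.L x *ᵥ A x)) := S.g_L hx0 _ _
    unfold Geo.g at *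
    rw [T8a_add_left, T8a_add_left, T8a_smul_left, T8a_smul_left, h3] at h2
    linarith
  -- the basis
  have e0 : S.g x (A x) (A x) = 0 := hcx.aa
  have e1 : S.g x (A x) (S.L x *ᵥ A x) = 0 := by rw [S.g_symm hx0]; exact hcx.la
  have e1' : S.g x (S.L x *ᵥ A x) (A x) = 0 := hcx.la
  have e2 : S.g x (A x) (S.L x *ᵥ (S.L x *ᵥ A x)) = 1 := by rw [S.g_symm hx0]; exact hcx.lla
  have e2' : S.g x (S.L x *ᵥ (S.L x *ᵥ A x)) (A x) = 1 := hcx.lla
  have e3 : S.g x (S.L x *ᵥ A x) (S.L x *ᵥ A x) = 1 := by rw [← S.g_L hx0]; exact hcx.lla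
  have hdet : (Matrix.of ![A x, S.L x *ᵥ A x, S.L x *ᵥ (S.L x *ᵥ A x)] : M3).det ≠ 0 := by
    intro h0
    have h1 := T8a_gram_det (S.G x) (A x) (S.L x *ᵥ A x) (S.L x *ᵥ (S.L x *ᵥ A x))
    rw [h0] at h1
    unfold Geo.g at e0 e1 e1' e2 e2' e3
    have h5 : ∀ a b c : ℝ, (!![0, 0, 1; 0, 1, a; 1, b, c] : M3).det = -1 := by
      intro a b c
      rw [Matrix.det_fin_three]
      simp
    rw [e0, e1, e2, e1', e3, e2', h5] at h1
    norm_num at h1
  obtain ⟨r, s, t, hX⟩ := T8b_basis hdet X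
  obtain ⟨r', s', t', hY⟩ := T8b_basis hdet Y
  have key : ∀ (v : V3) (r s t : ℝ), S.g x (S.nab A v x)
      (r • A x + s • (S.L x *ᵥ A x) + t • (S.L x *ᵥ (S.L x *ᵥ A x))) =
      s * (-(S.g x v (A x) * S.g x (S.lam x) (A x))) +
      t * (-(S.g x v (S.L x *ᵥ A x) * S.g x (S.lam x) (A x)) -
        S.g x v (A x) * S.g x (S.lam x) (S.L x *ᵥ A x)) := by
    intro v r s t
    rw [← d1 v, ← d2 v]
    have := d0 v
    unfold Geo.g at this ⊢
    rw [T8a_add_right, T8a_add_right, T8a_smul_right, T8a_smul_right, T8a_smul_right, this]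
    ring
  have ga : ∀ r s t : ℝ, S.g x (r • A x + s • (S.L x *ᵥ A x) + t • (S.L x *ᵥ (S.L x *ᵥ A x))) (A x) =
      t := by
    intro r s t
    unfold Geo.g at e0 e1' e2' ⊢
    rw [T8a_add_left, T8a_add_left, T8a_smul_left, T8a_smul_left, T8a_smul_left, e0, e1', e2']
    ring
  have gl : ∀ r s t : ℝ, S.g x (r • A x + s • (S.L x *ᵥ A x) + t • (S.L x *ᵥ (S.L x *ᵥ A x)))
      (S.L x *ᵥ A x) = s + t * S.g x (S.L x *ᵥ (S.L x *ᵥ A x)) (S.L x *ᵥ A x) := by
    intro r s t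
    unfold Geo.g at e1 e3 ⊢
    rw [T8a_add_left, T8a_add_left, T8a_smul_left, T8a_smul_left, T8a_smul_left, e1, e3]
    ring
  rw [hX, hY, key, key, ga, ga, gl, gl]
  ring

/-- the principal null form is closed -/
theorem J3_closed (S : Geo) {W : Set E4} (hW : OCone W) {A : E4 → V3} (hA : Hom A)
    (hs : ContDiffOn ℝ ∞ A W) (hc : ∀ x ∈ W, IsCyc S x (A x)) {x : E4} (hx : x ∈ W) (w w' : E4) :
    fderiv ℝ (form fun y => S.G y *ᵥ A y) x w w' = fderiv ℝ (form fun y => S.G y *ᵥ A y) x w' w := by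
  have hx0 : x ≠ 0 := by rintro rfl; exact hW.zero hx
  have hd : DifferentiableAt ℝ A x :=
    (hs.contDiffAt (hW.isOpen.mem_nhds hx)).differentiableAt (by simp)
  have h1 := T.form_flat_d S hA hx0 hd w w'
  have h2 := T8b_symm S hW hs hc hx (comps x w) (comps x w')
  linarith

end Pool.Agent.helper68.B2
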