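import Mathlib
import Pool.Agent.helper25.B2.TDefs
import Pool.Agent.helper98.B2.GA
import Pool.Agent.helper9.B2.T1b
import Pool.Agent.helper97.B2.T3b
import Pool.Agent.helper15.B2.T8b

/-! # B2 wave 2, module T3c: the form of a root field is closed -/

set_option autoImplicit false

namespace Pool.Agent.helper68.B2

open scoped ContDiff Topology Matrix
open Matrix Set Filter

theorem T3c_trace_cross (A B : M3) : (crossM A B).trace = A.trace * B.trace - (A * B).trace := by
  unfold crossM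
  rw [trace_add, trace_sub, trace_sub, trace_add, trace_smul, trace_smul, trace_smul,
    Matrix.trace_mul_comm B A, Matrix.trace_one]
  simp
  ring

/-- Cayley-Hamilton for the adjugate of a 3 by 3 matrix -/
theorem T3c_adj (A : M3) : A.adjugate = A * A - A.trace • A + A.adjugate.trace • (1 : M3) := by
  rw [Matrix.adjugate_fin_three]
  ext i j
  fin_cases i <;> fin_cases j <;>
  · simp [Matrix.mul_apply, Fin.sum_univ_three, Matrix.trace_fin_three]
    ring

theorem T3c_CH (A : M3) (v : V3) :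
    A *ᵥ (A *ᵥ v) - A.trace • (A *ᵥ v) + A.adjugate.trace • v = A.adjugate *ᵥ v := by
  have h := congrArg (fun M : M3 => M *ᵥ v) (T3c_adj A)
  simp only [add_mulVec, sub_mulVec, smul_mulVec, one_mulVec] at h
  rw [h, mulVec_mulVec]

theorem T3c_trace_cross' (A B : M3) (d : ℝ) :
    (crossM A (B - d • (1 : M3))).trace =
      A.trace * B.trace - (A * B).trace - 2 * d * A.trace := by
  have h1 : (A * (B - d • (1 : M3))).trace = (A * B).trace - d * A.trace := by
    rw [mul_sub, trace_sub, mul_smul_comm, trace_smul, mul_one, smul_eq_mul]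
  have h2 : (B - d • (1 : M3)).trace = B.trace - 3 * d := by
    rw [trace_sub, trace_smul, Matrix.trace_one, smul_eq_mul]
    simp
    ring
  rw [T3c_trace_cross, h1, h2]
  ring

theorem T3c_g_add (S : Geo) (x : E4) (u v w : V3) : S.g x (u + v) w = S.g x u w + S.g x v w :=
  T8a_add_left _ _ _ _

theorem T3c_g_smul (S : Geo) (x : E4) (c : ℝ) (u w : V3) : S.g x (c • u) w = c * S.g x u w :=
  T8a_smul_left _ _ _ _

theorem T3c_g_sub (S : Geo) (x : E4) (u v w : V3) : S.g x (u - v) w = S.g x u w - S.g x v w := by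
  unfold Geo.g bil; rw [sub_dotProduct]

theorem T3c_g_zero (S : Geo) (x : E4) (w : V3) : S.g x 0 w = 0 := by
  unfold Geo.g bil; rw [zero_dotProduct]

theorem T3c_nabE (S : Geo) {μ : E4 → ℝ} {x : E4} (hx : x ≠ 0) (hμ : DifferentiableAt ℝ μ x) (v : V3) :
    S.nabE (fun y => S.L y - μ y • (1 : M3)) v x = S.od x v (S.lam x) - Dv μ v x • (1 : M3) := by
  have h1 : DifferentiableAt ℝ (fun y => μ y • (1 : M3)) x := hμ.smul_const _
  have h2 : Dv (fun y => μ y • (1 : M3)) v x = Dv μ v x • (1 : M3) := by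
    have h3 : B0b_H v x (fun y => μ y • (1 : M3)) (Dv μ v x • (1 : M3)) := by
      refine ⟨_, hμ.hasFDerivAt.smul_const (1 : M3), ?_⟩
      rfl
    exact h3.eq
  rw [← S.main_v hx]
  unfold Geo.nabE
  rw [Dv_sub (S.GA_diffL hx) h1, h2]
  simp only [mul_sub, sub_mul, mul_smul_comm, smul_mul_assoc, mul_one, one_mul]
  abel

/-- symmetry of the covariant derivative of `T / g(T,T)`, from the identities of a root field -/
theorem T3c_symm (S : Geo) {W : Set E4} {μ : E4 → ℝ} {σ : ℝ} {T : E4 → V3} (h : IsRoot S W μ σ T)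
    {x : E4} (hx : x ∈ W)
    (heig : S.L x *ᵥ T x = μ x • T x)
    (hσN : ∀ y ∈ W, σ * S.g y (T y) (T y) = (S.L y - μ y • (1 : M3)).adjugate.trace)
    (hN : S.g x (T x) (T x) ≠ 0)
    (hdμ : ∀ v, Dv μ v x = 2 * S.g x (S.lam x) (T x) * S.g x (T x) v / S.g x (T x) (T x))
    (hnab : ∀ v, S.L x *ᵥ S.nab T v x - μ x • S.nab T v x =
      Dv μ v x • T x - (S.g x (S.lam x) (T x) • v + S.g x v (T x) • S.lam x)) (X Y : V3) :
    S.g x (S.nab (fun y => (S.g y (T y) (T y))⁻¹ • T y) X x) Y =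
      S.g x (S.nab (fun y => (S.g y (T y) (T y))⁻¹ • T y) Y x) X := by
  have hx0 : x ≠ 0 := by rintro rfl; exact h.cone.zero hx
  have hWn : W ∈ 𝓝 x := h.cone.isOpen.mem_nhds hx
  have hT : DifferentiableAt ℝ T x := (h.smT.contDiffAt hWn).differentiableAt (by simp)
  have hμd : DifferentiableAt ℝ μ x := (h.smμ.contDiffAt hWn).differentiableAt (by simp)
  have hNd : DifferentiableAt ℝ (fun y => S.g y (T y) (T y)) x := by
    have h1 : DifferentiableAt ℝ (fun y => S.G y *ᵥ T y) x :=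
      ((B0b_H_of (v := 0) (S.GA_diffG hx0)).bilin B0b_bil_mulVec (B0b_H_of hT)).diff
    exact ((B0b_H_of (v := 0) hT).bilin B0b_bil_dotProduct (B0b_H_of h1)).diff
  set N : E4 → ℝ := fun y => S.g y (T y) (T y) with hNdef
  have hNx : N x = S.g x (T x) (T x) := rfl
  have hσ2 : σ * σ = 1 := by rcases h.sign with h1 | h1 <;> rw [h1] <;> norm_num
  -- derivative of N
  have hdN : ∀ v, Dv N v x = 2 * S.g x (S.nab T v x) (T x) := by
    intro v
    have h1 := S.nab_g hx0 hT hT v
    rw [S.g_symm hx0 (T x)] at h1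
    rw [hNdef, h1]; ring
  set A : M3 := S.L x - μ x • (1 : M3) with hA
  set τ : ℝ := A.adjugate.trace with hτ
  have hAsa : Aᵀ * S.G x = S.G x * A := by
    have h1 := S.GA_L hx0
    rw [hA, transpose_sub, sub_mul, h1, mul_sub, transpose_smul, transpose_one, smul_mul_assoc,
      one_mul, mul_smul_comm, mul_one]
  have hdτ : ∀ v, σ * Dv N v x = 2 * A.trace * S.g x (S.lam x) v - 2 * S.g x (A *ᵥ S.lam x) v
      - 2 * A.trace * Dv μ v x := by
    intro v
    have hB : DifferentiableAt ℝ (fun y => S.L y - μ y • (1 : M3)) x :=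
      (S.GA_diffL hx0).sub (hμd.smul_const _)
    have hBa : DifferentiableAt ℝ (fun y => (S.L y - μ y • (1 : M3)).adjugate) x :=
      (B0b_H_adjugate (v := 0) (B0b_H_of hB)).diff
    have h1 : (fun y => σ * N y) =ᶠ[𝓝 x] fun y => (S.L y - μ y • (1 : M3)).adjugate.trace := by
      filter_upwards [hWn] with y hy using hσN y hy
    have h2 : Dv (fun y => σ * N y) v x = σ * Dv N v x := by
      have h3 : B0b_H v x (fun y => σ * N y) (σ * Dv N v x) := by
        refine ⟨_, hNd.hasFDerivAt.const_mul σ, ?_⟩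
        rfl
      exact h3.eq
    rw [← h2, B0b_Dv_congr h1, S.Dv_trace_nabE hBa, S.nabE_adjugate hB,
      T3c_nabE S hx0 hμd, T3c_trace_cross', S.GA_trace_od A x hx0 hAsa]
    have h4 : (S.od x v (S.lam x)).trace = 2 * S.g x (S.lam x) v := by
      have h5 := S.GA_trace_od 1 x hx0 (by rw [Matrix.transpose_one, Matrix.one_mul, Matrix.mul_one])
        v (S.lam x)
      rw [Matrix.one_mul, Matrix.one_mulVec] at h5
      exact h5
    rw [h4]
    ring
  -- the derivative of T
  have hAT : A *ᵥ T x = 0 := by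
    rw [hA, sub_mulVec, heig, smul_mulVec, one_mulVec, sub_self]
  have hD : ∀ v, A *ᵥ S.nab T v x =
      Dv μ v x • T x - (S.g x (S.lam x) (T x) • v + S.g x v (T x) • S.lam x) := by
    intro v
    rw [← hnab v, hA, sub_mulVec, smul_mulVec, one_mulVec]
  have hadj := h.adj x hx
  have hCH : ∀ v : V3, A *ᵥ (A *ᵥ v) - A.trace • (A *ᵥ v) + τ • v = (σ * S.g x (T x) v) • T x := by
    intro v
    have h1 : A.adjugate *ᵥ v = (σ * S.g x (T x) v) • T x := by
      rw [hA, hadj, smul_mulVec, GA_vecMulVec_mulVec, smul_smul]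
      congr 2
      rw [S.g_symm hx0]
      unfold Geo.g bil
      rw [dotProduct_comm]
    rw [← h1, hτ]
    exact T3c_CH A v
  have key : ∀ X Y : V3, τ * S.g x (S.nab T X x) Y - σ * Dv N X x * S.g x (T x) Y =
      2 * A.trace * (2 * S.g x (S.lam x) (T x) * S.g x (T x) X / S.g x (T x) (T x)) * S.g x (T x) Y
      + S.g x (S.lam x) (T x) * S.g x (A *ᵥ X) Y - A.trace * S.g x (S.lam x) (T x) * S.g x X Y
      + (S.g x (A *ᵥ S.lam x) X - A.trace * S.g x (S.lam x) X) * S.g x (T x) Y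
      + (S.g x (A *ᵥ S.lam x) Y - A.trace * S.g x (S.lam x) Y) * S.g x (T x) X := by
    intro X Y
    have h1 := hCH (S.nab T X x)
    rw [hD X, mulVec_sub, mulVec_add, mulVec_smul, mulVec_smul, mulVec_smul, hAT] at h1
    have h2 := congrArg (fun z => S.g x z Y) h1
    have h3 := hdτ X
    have h4 := hdN X
    have h5 : S.g x (T x) (S.nab T X x) = S.g x (S.nab T X x) (T x) := S.g_symm hx0 _ _
    have h6 : S.g x X (T x) = S.g x (T x) X := S.g_symm hx0 _ _
    rw [← hdμ X]
    simp only [T3c_g_add, T3c_g_sub, T3c_g_smul, T3c_g_zero] at h2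
    rw [h5, h6] at h2
    rw [h4] at h3
    rw [h4]
    linear_combination h2 - (1 / 2 : ℝ) * S.g x (T x) Y * h3
  have hτN : τ = σ * N x := (hσN x hx).symm
  have hσ0 : σ ≠ 0 := by rintro h1; rw [h1] at hσ2; norm_num at hσ2
  have hnabV : ∀ v w, σ * (N x) ^ 2 * S.g x (S.nab (fun y => (S.g y (T y) (T y))⁻¹ • T y) v x) w =
      τ * S.g x (S.nab T v x) w - σ * Dv N v x * S.g x (T x) w := by
    intro v w
    have h1 : DifferentiableAt ℝ (fun y => (N y)⁻¹) x := hNd.inv hN
    have h2 : Dv (fun y => (N y)⁻¹) v x = -(Dv N v x) / (N x) ^ 2 := by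
      have h3 : B0b_H v x (fun y => (N y)⁻¹) (-(Dv N v x) / (N x) ^ 2) := by
        have h4 := (hasDerivAt_inv hN).comp_hasFDerivAt x hNd.hasFDerivAt
        refine ⟨_, h4, ?_⟩
        change (-(N x ^ 2)⁻¹) • (fderiv ℝ N x (fld v x)) = -(Dv N v x) / (N x) ^ 2
        rw [smul_eq_mul]
        change -(N x ^ 2)⁻¹ * Dv N v x = _
        ring
      exact h3.eq
    have h5 : S.nab (fun y => (S.g y (T y) (T y))⁻¹ • T y) v x =
        (-(Dv N v x) / (N x) ^ 2) • T x + (N x)⁻¹ • S.nab T v x := by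
      unfold Geo.nab
      have h6 : Dv (fun y => (S.g y (T y) (T y))⁻¹ • T y) v x =
          Dv (fun y => (N y)⁻¹) v x • T x + (N x)⁻¹ • Dv T v x :=
        Dv_smul (f := fun y => (N y)⁻¹) (g := T) h1 hT
      rw [h6, h2, mulVec_smul, smul_add]
      abel
    rw [h5, T3c_g_add, T3c_g_smul, T3c_g_smul, hτN]
    have h7 : N x ≠ 0 := hN
    field_simp
    ring
  have hfin : σ * (N x) ^ 2 * S.g x (S.nab (fun y => (S.g y (T y) (T y))⁻¹ • T y) X x) Y =
      σ * (N x) ^ 2 * S.g x (S.nab (fun y => (S.g y (T y) (T y))⁻¹ • T y) Y x) X := by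
    rw [hnabV, hnabV, key, key]
    have h1 : S.g x (A *ᵥ X) Y = S.g x (A *ᵥ Y) X := by
      have h2 : S.g x (A *ᵥ X) Y = S.g x X (A *ᵥ Y) := GA_sa_bil hAsa X Y
      rw [h2, S.g_symm hx0]
    rw [h1, S.g_symm hx0 X Y]
    ring
  have h8 : σ * (N x) ^ 2 ≠ 0 := mul_ne_zero hσ0 (pow_ne_zero 2 hN)
  exact mul_left_cancel₀ h8 hfin

/-- the closed form `θ = T♭ / g(T,T)` -/
theorem T3_closed (S : Geo) {W : Set E4} {μ : E4 → ℝ} {σ : ℝ} {T : E4 → V3} (h : IsRoot S W μ σ T)
    {x : E4} (hx : x ∈ W) (w w' : E4) :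
    fderiv ℝ (theta S T) x w w' = fderiv ℝ (theta S T) x w' w := by
  have hx0 : x ≠ 0 := by rintro rfl; exact h.cone.zero hx
  have hWn : W ∈ 𝓝 x := h.cone.isOpen.mem_nhds hx
  have hT : DifferentiableAt ℝ T x := (h.smT.contDiffAt hWn).differentiableAt (by simp)
  obtain ⟨heig, -, hN, -⟩ := T3_eig S h hx 0
  have hth : theta S T = form fun y => S.G y *ᵥ ((S.g y (T y) (T y))⁻¹ • T y) := by
    unfold theta
    congr 1
    funext y
    rw [mulVec_smul]
  have hV : Hom (fun y => (S.g y (T y) (T y))⁻¹ • T y) := by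
    intro t ht y
    change (S.g (t • y) (T (t • y)) (T (t • y)))⁻¹ • T (t • y) = (S.g y (T y) (T y))⁻¹ • T y
    unfold Geo.g
    rw [h.homT t ht y, S.homG t ht y]
  have hNd : DifferentiableAt ℝ (fun y => S.g y (T y) (T y)) x := by
    have h1 : DifferentiableAt ℝ (fun y => S.G y *ᵥ T y) x :=
      ((B0b_H_of (v := 0) (S.GA_diffG hx0)).bilin B0b_bil_mulVec (B0b_H_of hT)).diff
    exact ((B0b_H_of (v := 0) hT).bilin B0b_bil_dotProduct (B0b_H_of h1)).diff
  have hVd : DifferentiableAt ℝ (fun y => (S.g y (T y) (T y))⁻¹ • T y) x := (hNd.inv hN).smul hT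
  have h1 := Pool.Agent.helper68.B2.T.form_flat_d S hV hx0 hVd w w'
  have h2 := T3c_symm S h hx heig (fun y hy => (T3_eig S h hy 0).2.1) hN
    (fun v => (T3_eig S h hx v).2.2.2) (fun v => T3_nab S h hx v) (comps x w) (comps x w')
  rw [hth]
  linarith

end Pool.Agent.helper68.B2
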