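import Mathlib
import Pool.Agent.helper25.B2.Sol

/-! # MP_b2b189_gt: Lipschitz dependence on the initial point (b2:FL) -/

set_option autoImplicit false

namespace Pool.Agent.helper25.B2

open Set Filter Topology

variable {E : Type*} [NormedAddCommGroup E] [NormedSpace ℝ E]
variable {F : Type*} [NormedAddCommGroup F] [NormedSpace ℝ F]

/-- uniform local Lipschitz constant along a compact set -/
theorem FL_aux1 {X : E → F} {Ω K : Set E} (hΩ : IsOpen Ω)
    (hX : ∀ x ∈ Ω, ContDiffAt ℝ 1 X x) (hK : IsCompact K) (hKΩ : K ⊆ Ω) :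
    ∃ ε > 0, ∃ L : ℝ, 0 ≤ L ∧ ∀ x ∈ K, ∀ y : E, ‖y - x‖ < ε →
      y ∈ Ω ∧ ‖X y - X x‖ ≤ L * ‖y - x‖ := by
  refine hK.induction_on (p := fun s => ∃ ε > 0, ∃ L : ℝ, 0 ≤ L ∧ ∀ x ∈ s, ∀ y : E,
    ‖y - x‖ < ε → y ∈ Ω ∧ ‖X y - X x‖ ≤ L * ‖y - x‖) ?_ ?_ ?_ ?_
  · exact ⟨1, one_pos, 0, le_refl _, by simp⟩
  · rintro s t hst ⟨ε, hε, L, hL, h⟩
    exact ⟨ε, hε, L, hL, fun x hx => h x (hst hx)⟩
  · rintro s t ⟨ε, hε, L, hL, h⟩ ⟨ε', hε', L', hL', h'⟩
    refine ⟨min ε ε', lt_min hε hε', max L L', le_max_of_le_left hL, ?_⟩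
    rintro x (hx | hx) y hy
    · obtain ⟨h1, h2⟩ := h x hx y (hy.trans_le (min_le_left _ _))
      exact ⟨h1, h2.trans (by gcongr; exact le_max_left _ _)⟩
    · obtain ⟨h1, h2⟩ := h' x hx y (hy.trans_le (min_le_right _ _))
      exact ⟨h1, h2.trans (by gcongr; exact le_max_right _ _)⟩
  · intro x hx
    obtain ⟨L, t, ht, hL⟩ := (hX x (hKΩ hx)).exists_lipschitzOnWith
    obtain ⟨r, hr, hr2⟩ := Metric.mem_nhds_iff.1 (inter_mem ht (hΩ.mem_nhds (hKΩ hx)))
    refine ⟨Metric.ball x (r / 2), mem_nhdsWithin_of_mem_nhds (Metric.ball_mem_nhds x (by positivity)),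
      r / 2, by positivity, L, L.2, ?_⟩
    intro z hz y hy
    have hz1 : z ∈ Metric.ball x r := by
      rw [Metric.mem_ball] at hz ⊢; linarith
    have hy1 : y ∈ Metric.ball x r := by
      rw [Metric.mem_ball] at hz ⊢
      have := dist_triangle y z x
      rw [dist_eq_norm y z] at this
      linarith
    refine ⟨(hr2 hy1).2, ?_⟩
    have := hL.dist_le_mul y (hr2 hy1).1 z (hr2 hz1).1
    rwa [dist_eq_norm, dist_eq_norm] at this

/-- uniform second order Taylor bound along a compact set -/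
theorem FL_aux2 {X : E → F} {Ω K : Set E} (hΩ : IsOpen Ω)
    (hX : ∀ x ∈ Ω, ContDiffAt ℝ 2 X x) (hK : IsCompact K) (hKΩ : K ⊆ Ω) :
    ∃ ε > 0, ∃ C : ℝ, 0 ≤ C ∧ ∀ x ∈ K, ‖fderiv ℝ X x‖ ≤ C ∧ ∀ y : E, ‖y - x‖ < ε →
      y ∈ Ω ∧ ‖X y - X x - fderiv ℝ X x (y - x)‖ ≤ C * ‖y - x‖ ^ 2 := by
  refine hK.induction_on (p := fun s => ∃ ε > 0, ∃ C : ℝ, 0 ≤ C ∧ ∀ x ∈ s, ‖fderiv ℝ X x‖ ≤ C ∧
    ∀ y : E, ‖y - x‖ < ε → y ∈ Ω ∧ ‖X y - X x - fderiv ℝ X x (y - x)‖ ≤ C * ‖y - x‖ ^ 2) ?_ ?_ ?_ ?_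
  · exact ⟨1, one_pos, 0, le_refl _, by simp⟩
  · rintro s t hst ⟨ε, hε, L, hL, h⟩
    exact ⟨ε, hε, L, hL, fun x hx => h x (hst hx)⟩
  · rintro s t ⟨ε, hε, L, hL, h⟩ ⟨ε', hε', L', hL', h'⟩
    refine ⟨min ε ε', lt_min hε hε', max L L', le_max_of_le_left hL, ?_⟩
    rintro x (hx | hx)
    · obtain ⟨h0, h⟩ := h x hx
      refine ⟨h0.trans (le_max_left _ _), fun y hy => ?_⟩
      obtain ⟨h1, h2⟩ := h y (hy.trans_le (min_le_left _ _))
      exact ⟨h1, h2.trans (by gcongr; exact le_max_left _ _)⟩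
    · obtain ⟨h0, h⟩ := h' x hx
      refine ⟨h0.trans (le_max_right _ _), fun y hy => ?_⟩
      obtain ⟨h1, h2⟩ := h y (hy.trans_le (min_le_right _ _))
      exact ⟨h1, h2.trans (by gcongr; exact le_max_right _ _)⟩
  · intro x hx
    have hx2 := hX x (hKΩ hx)
    have hd : ContDiffAt ℝ 1 (fderiv ℝ X) x := hx2.fderiv_right (by norm_num)
    obtain ⟨L, t, ht, hL⟩ := hd.exists_lipschitzOnWith
    obtain ⟨r, hr, hr2⟩ := Metric.mem_nhds_iff.1 (inter_mem ht (hΩ.mem_nhds (hKΩ hx)))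
    refine ⟨Metric.ball x (r / 2), mem_nhdsWithin_of_mem_nhds (Metric.ball_mem_nhds x (by positivity)),
      r / 2, by positivity, L + (‖fderiv ℝ X x‖ + L * r), by positivity, ?_⟩
    intro z hz
    have hx1 : x ∈ Metric.ball x r := Metric.mem_ball_self hr
    have hz1 : z ∈ Metric.ball x r := by
      rw [Metric.mem_ball] at hz ⊢; linarith
    have hdz : ‖fderiv ℝ X z - fderiv ℝ X x‖ ≤ L * r := by
      have := hL.dist_le_mul z (hr2 hz1).1 x (hr2 hx1).1
      rw [dist_eq_norm] at this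
      refine this.trans ?_
      rw [Metric.mem_ball] at hz1
      have := hz1.le
      gcongr
    constructor
    · have h1 : fderiv ℝ X z = (fderiv ℝ X z - fderiv ℝ X x) + fderiv ℝ X x := by abel
      have h2 := norm_add_le (fderiv ℝ X z - fderiv ℝ X x) (fderiv ℝ X x)
      rw [← h1] at h2
      have h3 : (0 : ℝ) ≤ L := L.2
      linarith
    · intro y hy
      have hball : Metric.closedBall z ‖y - z‖ ⊆ Metric.ball x r := by
        intro w hw
        rw [Metric.mem_closedBall] at hw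
        rw [Metric.mem_ball] at hz ⊢
        have := dist_triangle w z x
        linarith
      have hyb : y ∈ Metric.closedBall z ‖y - z‖ := by
        rw [Metric.mem_closedBall, dist_eq_norm]
      refine ⟨(hr2 (hball hyb)).2, ?_⟩
      have hmv := Convex.norm_image_sub_le_of_norm_hasFDerivWithin_le' (f := X)
        (f' := fun w => fderiv ℝ X w) (φ := fderiv ℝ X z) (s := Metric.closedBall z ‖y - z‖)
        (x := z) (y := y) (C := L * ‖y - z‖) (𝕜 := ℝ)
        (fun w hw => ((hX w (hr2 (hball hw)).2).differentiableAt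
          (by norm_num)).hasFDerivAt.hasFDerivWithinAt)
        (fun w hw => by
          have := hL.dist_le_mul w (hr2 (hball hw)).1 z (hr2 hz1).1
          rw [dist_eq_norm] at this
          refine this.trans ?_
          rw [Metric.mem_closedBall] at hw
          gcongr)
        (convex_closedBall _ _) (Metric.mem_closedBall_self (norm_nonneg _)) hyb
      refine hmv.trans ?_
      have h3 : (0 : ℝ) ≤ L := L.2
      have h4 : 0 ≤ ‖fderiv ℝ X x‖ + L * r := by positivity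
      nlinarith [mul_nonneg h4 (sq_nonneg ‖y - z‖)]

/-- Gronwall, forward, with a derivative bound valid only while the norm is small. -/
theorem FL_gron1 {f f' : ℝ → F} {b L ε c : ℝ} (hL : 0 ≤ L)
    (hf : ∀ t ∈ Icc 0 b, HasDerivAt f (f' t) t)
    (h : ∀ t ∈ Icc 0 b, ‖f t‖ < ε → ‖f' t‖ ≤ L * ‖f t‖)
    (hc : 0 < c) (h0 : ‖f 0‖ ≤ c) (hε : c * Real.exp ((L + 1) * b) < ε) :
    ∀ t ∈ Icc 0 b, ‖f t‖ ≤ c * Real.exp ((L + 1) * t) := by
  intro t ht
  refine image_norm_le_of_norm_deriv_right_lt_deriv_boundary (f := f) (f' := f')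
    (a := 0) (b := b) (B := fun t => c * Real.exp ((L + 1) * t))
    (B' := fun t => c * (Real.exp ((L + 1) * t) * (L + 1)))
    (fun t ht => (hf t ht).continuousAt.continuousWithinAt)
    (fun t ht => (hf t (Ico_subset_Icc_self ht)).hasDerivWithinAt) (by simpa using h0) ?_ ?_ ht
  · intro x
    have h1 : HasDerivAt (fun t : ℝ => (L + 1) * t) (L + 1) x := by
      simpa using (hasDerivAt_id x).const_mul (L + 1)
    exact (h1.exp).const_mul c
  · intro x hx hxe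
    have hxb : Real.exp ((L + 1) * x) ≤ Real.exp ((L + 1) * b) := by
      apply Real.exp_le_exp.2
      have := hx.2.le
      gcongr
    have hlt : ‖f x‖ < ε := by
      rw [hxe]
      exact lt_of_le_of_lt (by gcongr) hε
    have h2 := h x (Ico_subset_Icc_self hx) hlt
    rw [hxe] at h2
    refine lt_of_le_of_lt h2 ?_
    have h3 : 0 < c * Real.exp ((L + 1) * x) := by positivity
    nlinarith

theorem FL_gron2 {f f' : ℝ → F} {b L ε : ℝ} (hL : 0 ≤ L)
    (hf : ∀ t ∈ Icc 0 b, HasDerivAt f (f' t) t)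
    (h : ∀ t ∈ Icc 0 b, ‖f t‖ < ε → ‖f' t‖ ≤ L * ‖f t‖)
    (hε : ‖f 0‖ * Real.exp ((L + 1) * b) < ε) :
    ∀ t ∈ Icc 0 b, ‖f t‖ ≤ Real.exp ((L + 1) * b) * ‖f 0‖ := by
  intro t ht
  set M := Real.exp ((L + 1) * b) with hM
  have hMpos : 0 < M := Real.exp_pos _
  have key : ∀ c, ‖f 0‖ < c → c * M < ε → ‖f t‖ ≤ M * c := by
    intro c hc hce
    have h1 := FL_gron1 hL hf h (lt_of_le_of_lt (norm_nonneg _) hc) hc.le hce t ht
    refine h1.trans ?_
    rw [mul_comm]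
    have hc0 : 0 ≤ c := (norm_nonneg _).trans hc.le
    have : Real.exp ((L + 1) * t) ≤ M := by
      apply Real.exp_le_exp.2
      have := ht.2
      gcongr
    gcongr
  have hlim : Tendsto (fun c : ℝ => M * c) (𝓝[>] ‖f 0‖) (𝓝 (M * ‖f 0‖)) := by
    apply Tendsto.mono_left _ nhdsWithin_le_nhds
    exact (continuous_const.mul continuous_id).tendsto _
  refine ge_of_tendsto hlim ?_
  have hev : ∀ᶠ c : ℝ in 𝓝[>] ‖f 0‖, c * M < ε := by
    have : Tendsto (fun c : ℝ => c * M) (𝓝[>] ‖f 0‖) (𝓝 (‖f 0‖ * M)) := by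
      apply Tendsto.mono_left _ nhdsWithin_le_nhds
      exact (continuous_id.mul continuous_const).tendsto _
    exact this.eventually_lt_const hε
  filter_upwards [hev, self_mem_nhdsWithin] with c hc1 hc2
  exact key c hc2 hc1

/-- two sided version -/
theorem FL_gron {f f' : ℝ → F} {a b L ε : ℝ} (hL : 0 ≤ L) (ha : a ≤ 0) (hb : 0 ≤ b)
    (hf : ∀ t ∈ Icc a b, HasDerivAt f (f' t) t)
    (h : ∀ t ∈ Icc a b, ‖f t‖ < ε → ‖f' t‖ ≤ L * ‖f t‖)
    (hε : ‖f 0‖ * Real.exp ((L + 1) * (b - a)) < ε) :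
    ∀ t ∈ Icc a b, ‖f t‖ ≤ Real.exp ((L + 1) * (b - a)) * ‖f 0‖ := by
  intro t ht
  rcases le_total 0 t with h0 | h0
  · have hle : Real.exp ((L + 1) * b) ≤ Real.exp ((L + 1) * (b - a)) := by
      apply Real.exp_le_exp.2
      have : b ≤ b - a := by linarith
      gcongr
    have := FL_gron2 (f := f) (f' := f') (b := b) (ε := ε) hL
      (fun s hs => hf s ⟨ha.trans hs.1, hs.2⟩) (fun s hs => h s ⟨ha.trans hs.1, hs.2⟩)
      (lt_of_le_of_lt (by gcongr) hε) t ⟨h0, ht.2⟩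
    exact this.trans (by gcongr)
  · have hle : Real.exp ((L + 1) * (-a)) ≤ Real.exp ((L + 1) * (b - a)) := by
      apply Real.exp_le_exp.2
      have : -a ≤ b - a := by linarith
      gcongr
    have := FL_gron2 (f := fun s => f (-s)) (f' := fun s => -f' (-s)) (b := -a) (ε := ε) hL
      (fun s hs => by
        have h1 := hf (-s) ⟨by linarith [hs.2], by linarith [hs.1]⟩
        have h2 := h1.scomp s (hasDerivAt_neg s)
        simpa [Function.comp_def] using h2)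
      (fun s hs hlt => by
        rw [norm_neg]
        exact h (-s) ⟨by linarith [hs.2], by linarith [hs.1]⟩ hlt)
      (by
        simp only [neg_zero]
        exact lt_of_le_of_lt (mul_le_mul_of_nonneg_left hle (norm_nonneg _)) hε) (-t) ⟨by linarith, by linarith [ht.1]⟩
    simp only [neg_neg, neg_zero] at this
    exact this.trans (by gcongr)

theorem FL_compact {X : E → E} {Ω : Set E} {γ : ℝ → E} {a b : ℝ} (hγ : Sol X Ω γ (Icc a b)) :
    IsCompact (γ '' Icc a b) ∧ γ '' Icc a b ⊆ Ω := by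
  refine ⟨isCompact_Icc.image_of_continuousOn hγ.continuousOn, ?_⟩
  rintro _ ⟨t, ht, rfl⟩
  exact hγ.mem ht

/-- F3: Lipschitz dependence on the initial point, on a fixed compact interval of times. -/
theorem sol_lipschitz {X : E → E} {Ω : Set E} (hΩ : IsOpen Ω)
    (hX : ∀ x ∈ Ω, ContDiffAt ℝ 1 X x) {a b : ℝ} (ha : a ≤ 0) (hb : 0 ≤ b) {γ : ℝ → E}
    (hγ : Sol X Ω γ (Icc a b)) :
    ∃ δ > 0, ∃ C : ℝ, 0 ≤ C ∧ ∀ η : ℝ → E, Sol X Ω η (Icc a b) → ‖η 0 - γ 0‖ < δ →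
      ∀ t ∈ Icc a b, ‖η t - γ t‖ ≤ C * ‖η 0 - γ 0‖ := by
  obtain ⟨hK, hKΩ⟩ := FL_compact hγ
  obtain ⟨ε, hε, L, hL, h⟩ := FL_aux1 hΩ hX hK hKΩ
  set M := Real.exp ((L + 1) * (b - a)) with hM
  have hMpos : 0 < M := Real.exp_pos _
  refine ⟨ε / M, by positivity, M, hMpos.le, ?_⟩
  intro η hη h0 t ht
  refine FL_gron (f := fun t => η t - γ t) (f' := fun t => X (η t) - X (γ t)) hL ha hb
    (fun s hs => (hη.hasDerivAt hs).sub (hγ.hasDerivAt hs))
    (fun s hs hlt => (h (γ s) (mem_image_of_mem γ hs) (η s) hlt).2) ?_ t ht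
  rwa [lt_div_iff₀ hMpos] at h0

end Pool.Agent.helper25.B2
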