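import Mathlib
import Pool.Agent.helper15.B2.FL

/-! # MP_b2b189_gt: commuting fields (b2:FC) -/

set_option autoImplicit false

namespace Pool.Agent.helper25.B2

open Set Filter Topology

variable {E : Type*} [NormedAddCommGroup E] [NormedSpace ℝ E]

theorem FC_gron1 {f f' : ℝ → E} {b L κ : ℝ} (hL : 0 ≤ L) (hκ : 0 ≤ κ) (hb : 0 ≤ b)
    (hf : ∀ t ∈ Icc 0 b, HasDerivAt f (f' t) t)
    (h : ∀ t ∈ Icc 0 b, ‖f' t‖ ≤ L * ‖f t‖ + κ) :
    ∀ t ∈ Icc 0 b, ‖f t‖ ≤ Real.exp ((L + 1) * b) * (‖f 0‖ + κ) := by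
  intro t ht
  have h1 := norm_le_gronwallBound_of_norm_deriv_right_le (f := f) (f' := f') (δ := ‖f 0‖)
    (K := L + 1) (ε := κ) (a := 0) (b := b)
    (fun t ht => (hf t ht).continuousAt.continuousWithinAt)
    (fun t ht => (hf t (Ico_subset_Icc_self ht)).hasDerivWithinAt) (le_refl _)
    (fun t ht => by
      have := h t (Ico_subset_Icc_self ht)
      have h2 := norm_nonneg (f t)
      linarith) t ht
  refine h1.trans ?_
  rw [gronwallBound_of_K_ne_0 (by positivity), sub_zero]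
  have hexp : Real.exp ((L + 1) * t) ≤ Real.exp ((L + 1) * b) := by
    apply Real.exp_le_exp.2
    have := ht.2
    gcongr
  have hK : κ / (L + 1) ≤ κ := div_le_self hκ (by linarith)
  have h1e : 1 ≤ Real.exp ((L + 1) * t) := Real.one_le_exp (by have := ht.1; positivity)
  calc ‖f 0‖ * Real.exp ((L + 1) * t) + κ / (L + 1) * (Real.exp ((L + 1) * t) - 1)
      ≤ ‖f 0‖ * Real.exp ((L + 1) * b) + κ * Real.exp ((L + 1) * b) := by
        have : Real.exp ((L + 1) * t) - 1 ≤ Real.exp ((L + 1) * b) := by linarith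
        have h0 : 0 ≤ Real.exp ((L + 1) * t) - 1 := by linarith
        gcongr
    _ = Real.exp ((L + 1) * b) * (‖f 0‖ + κ) := by ring

theorem FC_gron {f f' : ℝ → E} {a b L κ : ℝ} (hL : 0 ≤ L) (hκ : 0 ≤ κ) (ha : a ≤ 0) (hb : 0 ≤ b)
    (hf : ∀ t ∈ Icc a b, HasDerivAt f (f' t) t)
    (h : ∀ t ∈ Icc a b, ‖f' t‖ ≤ L * ‖f t‖ + κ) :
    ∀ t ∈ Icc a b, ‖f t‖ ≤ Real.exp ((L + 1) * (b - a)) * (‖f 0‖ + κ) := by
  intro t ht
  rcases le_total 0 t with h0 | h0
  · have hle : Real.exp ((L + 1) * b) ≤ Real.exp ((L + 1) * (b - a)) := by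
      apply Real.exp_le_exp.2
      have : b ≤ b - a := by linarith
      gcongr
    have := FC_gron1 (f := f) (f' := f') (b := b) hL hκ hb
      (fun s hs => hf s ⟨ha.trans hs.1, hs.2⟩) (fun s hs => h s ⟨ha.trans hs.1, hs.2⟩)
      t ⟨h0, ht.2⟩
    exact this.trans (by gcongr)
  · have hle : Real.exp ((L + 1) * (-a)) ≤ Real.exp ((L + 1) * (b - a)) := by
      apply Real.exp_le_exp.2
      have : -a ≤ b - a := by linarith
      gcongr
    have := FC_gron1 (f := fun s => f (-s)) (f' := fun s => -f' (-s)) (b := -a) hL hκ (by linarith)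
      (fun s hs => by
        have h1 := hf (-s) ⟨by linarith [hs.2], by linarith [hs.1]⟩
        have h2 := h1.scomp s (hasDerivAt_neg s)
        simpa [Function.comp_def] using h2)
      (fun s hs => by
        rw [norm_neg]
        exact h (-s) ⟨by linarith [hs.2], by linarith [hs.1]⟩)
      (-t) ⟨by linarith, by linarith [ht.1]⟩
    simp only [neg_neg, neg_zero] at this
    exact this.trans (by gcongr)

/-- F4b: commuting vector fields: the flow of `X` maps the velocity `Y` to `Y`. -/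
theorem sol_commute {X Y : E → E} {Ω : Set E} (hΩ : IsOpen Ω)
    (hX : ∀ x ∈ Ω, ContDiffAt ℝ 2 X x) (hY : ∀ x ∈ Ω, ContDiffAt ℝ 1 Y x)
    (hXY : ∀ x ∈ Ω, fderiv ℝ Y x (X x) = fderiv ℝ X x (Y x))
    {a b : ℝ} (ha : a ≤ 0) (hb : 0 ≤ b) {H : ℝ → ℝ → E} {r₀ : ℝ}
    (hH : ∀ᶠ r in 𝓝 r₀, Sol X Ω (H r) (Icc a b))
    (hp : HasDerivAt (fun r => H r 0) (Y (H r₀ 0)) r₀) :
    ∀ t ∈ Icc a b, HasDerivAt (fun r => H r t) (Y (H r₀ t)) r₀ := by
  intro t ht
  have hX1 : ∀ x ∈ Ω, ContDiffAt ℝ 1 X x := fun x hx => (hX x hx).of_le (by norm_num)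
  have hγ : Sol X Ω (H r₀) (Icc a b) := hH.self_of_nhds
  set γ := H r₀ with hγdef
  obtain ⟨hK, hKΩ⟩ := FL_compact hγ
  obtain ⟨δ₁, hδ₁, C₁, hC₁, h1⟩ := sol_lipschitz hΩ hX1 ha hb hγ
  obtain ⟨ε, hε, C₂, hC₂, h2⟩ := FL_aux2 hΩ hX hK hKΩ
  -- Lipschitz at the initial time
  set C₀ := ‖Y (γ 0)‖ + 1 with hC₀
  have hC₀pos : 0 < C₀ := by positivity
  have hp' := (hasDerivAt_iff_isLittleO.1 hp)
  have hlip0 : ∀ᶠ r in 𝓝 r₀, ‖H r 0 - γ 0‖ ≤ C₀ * |r - r₀| := by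
    have h3 := hp'.def (c := 1) one_pos
    filter_upwards [h3] with r hr
    rw [Real.norm_eq_abs] at hr
    have e1 : H r 0 - γ 0 = (H r 0 - γ 0 - (r - r₀) • Y (γ 0)) + (r - r₀) • Y (γ 0) := by abel
    rw [e1]
    refine (norm_add_le _ _).trans ?_
    rw [norm_smul, Real.norm_eq_abs, hC₀]
    have : ‖H r 0 - γ 0 - (r - r₀) • Y (γ 0)‖ ≤ 1 * |r - r₀| := hr
    nlinarith
  set M := Real.exp ((C₂ + 1) * (b - a)) with hM
  have hMpos : 0 < M := Real.exp_pos _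
  set κ := C₂ * (C₁ * C₀) ^ 2 with hκ
  have hκ0 : 0 ≤ κ := by positivity
  -- smallness
  have hs1 : ∀ᶠ r in 𝓝 r₀, C₀ * |r - r₀| < δ₁ := by
    have : Tendsto (fun r => C₀ * |r - r₀|) (𝓝 r₀) (𝓝 (C₀ * |r₀ - r₀|)) := by
      apply Continuous.tendsto; fun_prop
    simp only [sub_self, abs_zero, mul_zero] at this
    exact this.eventually_lt_const hδ₁
  have hs2 : ∀ᶠ r in 𝓝 r₀, C₁ * (C₀ * |r - r₀|) < ε := by
    have : Tendsto (fun r => C₁ * (C₀ * |r - r₀|)) (𝓝 r₀) (𝓝 (C₁ * (C₀ * |r₀ - r₀|))) := by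
      apply Continuous.tendsto; fun_prop
    simp only [sub_self, abs_zero, mul_zero] at this
    exact this.eventually_lt_const hε
  have key : ∀ᶠ r in 𝓝 r₀, ‖H r t - γ t - (r - r₀) • Y (γ t)‖
      ≤ M * (‖H r 0 - γ 0 - (r - r₀) • Y (γ 0)‖ + κ * |r - r₀| ^ 2) := by
    filter_upwards [hH, hlip0, hs1, hs2] with r hr h0 hr1 hr2
    have hlip : ∀ s ∈ Icc a b, ‖H r s - γ s‖ ≤ C₁ * (C₀ * |r - r₀|) := by
      intro s hs
      exact (h1 (H r) hr (h0.trans_lt hr1) s hs).trans (by gcongr)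
    refine FC_gron (f := fun s => H r s - γ s - (r - r₀) • Y (γ s))
      (f' := fun s => X (H r s) - X (γ s) - (r - r₀) • fderiv ℝ Y (γ s) (X (γ s)))
      (L := C₂) (κ := κ * |r - r₀| ^ 2) hC₂ (by positivity) ha hb ?_ ?_ t ht
    · intro s hs
      have e1 : HasDerivAt (fun s => Y (γ s)) (fderiv ℝ Y (γ s) (X (γ s))) s := by
        have := ((hY _ (hγ.mem hs)).differentiableAt (by norm_num)).hasFDerivAt.comp_hasDerivAt s
          (hγ.hasDerivAt hs)
        simpa [Function.comp_def] using this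
      exact ((hr.hasDerivAt hs).sub (hγ.hasDerivAt hs)).sub (e1.const_smul (r - r₀))
    · intro s hs
      have hK1 : γ s ∈ γ '' Icc a b := mem_image_of_mem γ hs
      obtain ⟨hD, hT⟩ := h2 (γ s) hK1
      have hT := (hT (H r s) ((hlip s hs).trans_lt hr2)).2
      have e1 : X (H r s) - X (γ s) - (r - r₀) • fderiv ℝ Y (γ s) (X (γ s))
          = fderiv ℝ X (γ s) (H r s - γ s - (r - r₀) • Y (γ s))
            + (X (H r s) - X (γ s) - fderiv ℝ X (γ s) (H r s - γ s)) := by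
        rw [hXY _ (hγ.mem hs), map_sub (fderiv ℝ X (γ s)) (H r s - γ s), map_smul]
        abel
      rw [e1]
      refine (norm_add_le _ _).trans ?_
      have e2 : ‖fderiv ℝ X (γ s) (H r s - γ s - (r - r₀) • Y (γ s))‖
          ≤ C₂ * ‖H r s - γ s - (r - r₀) • Y (γ s)‖ :=
        ((fderiv ℝ X (γ s)).le_opNorm _).trans (by gcongr)
      have e3 : ‖X (H r s) - X (γ s) - fderiv ℝ X (γ s) (H r s - γ s)‖ ≤ κ * |r - r₀| ^ 2 := by
        refine hT.trans ?_
        have := hlip s hs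
        calc C₂ * ‖H r s - γ s‖ ^ 2 ≤ C₂ * (C₁ * (C₀ * |r - r₀|)) ^ 2 := by gcongr
          _ = κ * |r - r₀| ^ 2 := by rw [hκ]; ring
      exact add_le_add e2 e3
  rw [hasDerivAt_iff_isLittleO]
  have hsq : (fun r : ℝ => κ * |r - r₀| ^ 2) =o[𝓝 r₀] fun r => r - r₀ := by
    rw [Asymptotics.isLittleO_iff]
    intro c hc
    have : Tendsto (fun r => κ * |r - r₀|) (𝓝 r₀) (𝓝 (κ * |r₀ - r₀|)) := by
      apply Continuous.tendsto; fun_prop
    simp only [sub_self, abs_zero, mul_zero] at this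
    filter_upwards [this.eventually_lt_const hc] with r hr
    rw [Real.norm_eq_abs, Real.norm_eq_abs, abs_of_nonneg (by positivity), sq, ← mul_assoc]
    exact mul_le_mul_of_nonneg_right hr.le (abs_nonneg _)
  have hsum : (fun r : ℝ => M * (‖H r 0 - γ 0 - (r - r₀) • Y (γ 0)‖ + κ * |r - r₀| ^ 2))
      =o[𝓝 r₀] fun r => r - r₀ := (hp'.norm_left.add hsq).const_mul_left M
  refine Asymptotics.IsBigO.trans_isLittleO ?_ hsum
  refine Asymptotics.IsBigO.of_bound 1 ?_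
  filter_upwards [key] with r hr
  rw [one_mul]
  exact hr.trans (le_abs_self _)

end Pool.Agent.helper25.B2
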