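import Mathlib
import Pool.Agent.helper15.B2.FL

/-! # MP_b2b189_gt: transport of an invariant 1-form (b2:FF) -/

set_option autoImplicit false

namespace Pool.Agent.helper25.B2

open Set Filter Topology

variable {E : Type*} [NormedAddCommGroup E] [NormedSpace ℝ E]

/-- F4a: transport of an `X`-invariant 1-form, up to a quadratic error. -/
theorem sol_form_invariant {X : E → E} {Ω : Set E} (hΩ : IsOpen Ω)
    (hX : ∀ x ∈ Ω, ContDiffAt ℝ 2 X x) {θ : E → E →L[ℝ] ℝ} (hθ : ∀ x ∈ Ω, ContDiffAt ℝ 1 θ x)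
    (hinv : ∀ x ∈ Ω, ∀ w : E, fderiv ℝ θ x (X x) w + θ x (fderiv ℝ X x w) = 0)
    {a b : ℝ} (ha : a ≤ 0) (hb : 0 ≤ b) {γ : ℝ → E} (hγ : Sol X Ω γ (Icc a b)) :
    ∃ δ > 0, ∃ C : ℝ, 0 ≤ C ∧ ∀ η : ℝ → E, Sol X Ω η (Icc a b) → ‖η 0 - γ 0‖ < δ →
      ∀ t ∈ Icc a b, |θ (γ t) (η t - γ t) - θ (γ 0) (η 0 - γ 0)| ≤ C * ‖η 0 - γ 0‖ ^ 2 := by
  have hX1 : ∀ x ∈ Ω, ContDiffAt ℝ 1 X x := fun x hx => (hX x hx).of_le (by norm_num)
  obtain ⟨hK, hKΩ⟩ := FL_compact hγ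
  obtain ⟨δ₁, hδ₁, C₁, hC₁, h1⟩ := sol_lipschitz hΩ hX1 ha hb hγ
  obtain ⟨ε, hε, C₂, hC₂, h2⟩ := FL_aux2 hΩ hX hK hKΩ
  -- bound of theta on the compact set
  obtain ⟨M, hM⟩ := hK.exists_bound_of_continuousOn (f := θ)
    (fun x hx => (hθ x (hKΩ hx)).continuousAt.continuousWithinAt)
  have hM0 : 0 ≤ M := (norm_nonneg _).trans (hM (γ 0) (mem_image_of_mem γ ⟨ha, hb⟩))
  refine ⟨min δ₁ (ε / (C₁ + 1)), lt_min hδ₁ (by positivity), M * (C₂ * C₁ ^ 2) * (b - a),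
    by have : 0 ≤ b - a := by linarith
       positivity, ?_⟩
  intro η hη h0 t ht
  set r := ‖η 0 - γ 0‖ with hr
  have hr0 : 0 ≤ r := norm_nonneg _
  have hlip : ∀ s ∈ Icc a b, ‖η s - γ s‖ ≤ C₁ * r := h1 η hη (h0.trans_le (min_le_left _ _))
  have hsmall : ∀ s ∈ Icc a b, ‖η s - γ s‖ < ε := by
    intro s hs
    refine lt_of_le_of_lt (hlip s hs) ?_
    have h3 := h0.trans_le (min_le_right _ _)
    rw [lt_div_iff₀ (by positivity)] at h3
    nlinarith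
  -- derivative
  have hd : ∀ s ∈ Icc a b, HasDerivAt (fun s => θ (γ s) (η s - γ s))
      (θ (γ s) (X (η s) - X (γ s) - fderiv ℝ X (γ s) (η s - γ s))) s := by
    intro s hs
    have hγs := hγ.mem hs
    have e1 : HasDerivAt (fun s => θ (γ s)) (fderiv ℝ θ (γ s) (X (γ s))) s := by
      have := ((hθ _ hγs).differentiableAt (by norm_num)).hasFDerivAt.comp_hasDerivAt s
        (hγ.hasDerivAt hs)
      simpa [Function.comp_def] using this
    have e2 : HasDerivAt (fun s => η s - γ s) (X (η s) - X (γ s)) s :=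
      (hη.hasDerivAt hs).sub (hγ.hasDerivAt hs)
    have e3 := e1.clm_apply e2
    have e4 := hinv (γ s) hγs (η s - γ s)
    have e5 : fderiv ℝ θ (γ s) (X (γ s)) (η s - γ s) + θ (γ s) (X (η s) - X (γ s))
        = θ (γ s) (X (η s) - X (γ s) - fderiv ℝ X (γ s) (η s - γ s)) := by
      rw [map_sub (θ (γ s)) (X (η s) - X (γ s))]
      linarith
    rw [← e5]
    exact e3
  have hbd : ∀ s ∈ Icc a b, ‖θ (γ s) (X (η s) - X (γ s) - fderiv ℝ X (γ s) (η s - γ s))‖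
      ≤ M * (C₂ * C₁ ^ 2) * r ^ 2 := by
    intro s hs
    have hK1 : γ s ∈ γ '' Icc a b := mem_image_of_mem γ hs
    refine ((θ (γ s)).le_opNorm _).trans ?_
    have e1 := hM (γ s) hK1
    have e2 := ((h2 (γ s) hK1).2 (η s) (hsmall s hs)).2
    have e3 : ‖η s - γ s‖ ^ 2 ≤ (C₁ * r) ^ 2 := by
      have := hlip s hs
      gcongr
    calc ‖θ (γ s)‖ * ‖X (η s) - X (γ s) - fderiv ℝ X (γ s) (η s - γ s)‖
        ≤ M * (C₂ * (C₁ * r) ^ 2) := by
          gcongr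
          exact e2.trans (by gcongr)
      _ = M * (C₂ * C₁ ^ 2) * r ^ 2 := by ring
  have hmv := Convex.norm_image_sub_le_of_norm_hasDerivWithin_le (f := fun s => θ (γ s) (η s - γ s))
    (s := Icc a b) (x := 0) (y := t) (fun s hs => (hd s hs).hasDerivWithinAt) hbd
    (convex_Icc a b) ⟨ha, hb⟩ ht
  rw [Real.norm_eq_abs, Real.norm_eq_abs] at hmv
  refine hmv.trans ?_
  have ht' : |t - 0| ≤ b - a := by
    rw [sub_zero, abs_le]; constructor <;> linarith [ht.1, ht.2]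
  calc M * (C₂ * C₁ ^ 2) * r ^ 2 * |t - 0| ≤ M * (C₂ * C₁ ^ 2) * r ^ 2 * (b - a) := by gcongr
    _ = M * (C₂ * C₁ ^ 2) * (b - a) * r ^ 2 := by ring

end Pool.Agent.helper25.B2
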